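import Mathlib
import Pool.Agent.Results.MP_4cc686_gt.OpenImage

/-!
# Hereditary density under continuous surjections of function spaces: the sharp bound

If `C_p(X)` maps continuously onto `C_p(Y)` then `hd(Y) ≤ 2 ^ hd(X)`, and this bound is attained:
there are compact spaces `X`, `Y` and an open continuous surjection `C_p(X) → C_p(Y)` with
`hd(X) = ω` and `hd(Y) = 2 ^ ω`.
-/

set_option autoImplicit false

open Set Filter Topology TopologicalSpace Cardinal

namespace Pool.Agent.Results.MP_4cc686_gt.SharpBound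

open OpenImage

/-- A network of a space (used only in the proof). -/
def IsNet {Z : Type} [TopologicalSpace Z] (N : Set (Set Z)) : Prop :=
  ∀ (z : Z) (U : Set Z), IsOpen U → z ∈ U → ∃ A ∈ N, z ∈ A ∧ A ⊆ U

/-- A base of a regular space from a dense set. -/
theorem exists_base {X : Type} [TopologicalSpace X] [RegularSpace X] (D : Set X) (hD : Dense D) :
    ∃ N : Set (Set X), IsNet N ∧ #N ≤ 2 ^ #D := by
  refine ⟨range (fun S : Set D => interior (closure (Subtype.val '' S))), ?_, ?_⟩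
  · intro z U hU hz
    obtain ⟨V, hV, hVc, hVU⟩ := exists_mem_nhds_isClosed_subset (hU.mem_nhds hz)
    obtain ⟨W, hWV, hW, hzW⟩ := mem_nhds_iff.1 hV
    refine ⟨_, ⟨Subtype.val ⁻¹' W, rfl⟩, ?_, ?_⟩
    · have h1 : W ⊆ closure (Subtype.val '' (Subtype.val ⁻¹' W : Set D)) := by
        rw [Subtype.image_preimage_coe, inter_comm]
        exact hD.open_subset_closure_inter hW
      exact mem_interior.2 ⟨W, h1, hW, hzW⟩
    · refine interior_subset.trans ?_
      refine (closure_minimal ?_ hVc).trans hVU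
      rintro _ ⟨x, hx, rfl⟩
      exact hWV hx
  · refine mk_range_le.trans ?_
    rw [mk_set]

/-- A network of the function space from a network of the space. -/
theorem exists_net_Cp {X : Type} [TopologicalSpace X] (N : Set (Set X)) (hN : IsNet N)
    {c : Cardinal.{0}} (hc : ℵ₀ ≤ c) (hNc : #N ≤ c) :
    ∃ M : Set (Set (Cp X)), IsNet M ∧ #M ≤ c := by
  classical
  let g : Finset (N × (ℚ × ℚ)) → Set (Cp X) := fun s =>
    {f | ∀ p ∈ s, ∀ x ∈ p.1.1, (p.2.1 : ℝ) < f.1 x ∧ f.1 x < p.2.2}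
  refine ⟨range g, ?_, ?_⟩
  · intro f U hU hf
    obtain ⟨G, ε, hε, hGU⟩ := Cp_nhds (hU.mem_nhds hf)
    have h1 : ∀ x : X, ∃ p : N × (ℚ × ℚ), x ∈ p.1.1 ∧
        (∀ y ∈ p.1.1, (p.2.1 : ℝ) < f.1 y ∧ f.1 y < p.2.2) ∧
        f.1 x - ε < p.2.1 ∧ (p.2.2 : ℝ) < f.1 x + ε := by
      intro x
      obtain ⟨a, ha1, ha2⟩ := exists_rat_btwn (show f.1 x - ε < f.1 x by linarith)
      obtain ⟨b, hb1, hb2⟩ := exists_rat_btwn (show f.1 x < f.1 x + ε by linarith)
      obtain ⟨A, hA, hxA, hAV⟩ := hN x (f.1 ⁻¹' (Ioo (a : ℝ) b)) (isOpen_Ioo.preimage f.2)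
        ⟨ha2, hb1⟩
      exact ⟨(⟨A, hA⟩, (a, b)), hxA, fun y hy => hAV hy, ha1, hb2⟩
    choose p hp1 hp2 hp3 hp4 using h1
    refine ⟨_, ⟨G.image p, rfl⟩, ?_, ?_⟩
    · intro q hq x hx
      obtain ⟨y, -, rfl⟩ := Finset.mem_image.1 hq
      exact hp2 y x hx
    · intro h hh
      refine hGU h (fun x hx => ?_)
      have h2 := hh (p x) (Finset.mem_image_of_mem p hx) x (hp1 x)
      rw [abs_lt]
      constructor
      · linarith [h2.1, hp3 x]
      · linarith [h2.2, hp4 x]
  · refine mk_range_le.trans ?_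
    have h1 : #(Finset (N × (ℚ × ℚ))) ≤ #(List (N × (ℚ × ℚ))) :=
      Cardinal.mk_le_of_surjective (f := List.toFinset) List.toFinset_surjective
    refine h1.trans ((Cardinal.mk_list_le_max _).trans (max_le hc ?_))
    rw [← mul_def]
    refine (mul_le_mul' hNc ?_).trans (mul_eq_self hc).le
    exact (mk_le_aleph0 (α := ℚ × ℚ)).trans hc

/-- A network of the space from a network of the function space. -/
theorem exists_net_of_Cp {Y : Type} [TopologicalSpace Y] [CompletelyRegularSpace Y]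
    (M : Set (Set (Cp Y))) (hM : IsNet M) : ∃ N : Set (Set Y), IsNet N ∧ #N ≤ #M := by
  refine ⟨(fun A : Set (Cp Y) => {z : Y | ∀ h ∈ A, (1 / 2 : ℝ) < h.1 z}) '' M, ?_, mk_image_le⟩
  intro z U hU hz
  obtain ⟨f, hf, hfz, hfU⟩ := CompletelyRegularSpace.completely_regular z Uᶜ hU.isClosed_compl
    (by simpa using hz)
  let g : Cp Y := ⟨fun y => 1 - (f y : ℝ), continuous_const.sub
    (continuous_subtype_val.comp hf)⟩
  have hopen : IsOpen {h : Cp Y | (1 / 2 : ℝ) < h.1 z} :=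
    isOpen_lt continuous_const ((continuous_apply z).comp continuous_subtype_val)
  have hgz : g ∈ {h : Cp Y | (1 / 2 : ℝ) < h.1 z} := by
    change (1 / 2 : ℝ) < 1 - (f z : ℝ)
    rw [hfz]
    norm_num
  obtain ⟨A, hA, hgA, hAz⟩ := hM g _ hopen hgz
  refine ⟨_, ⟨A, hA, rfl⟩, fun h hh => hAz hh, ?_⟩
  intro w hw
  by_contra hwU
  have h1 : (1 / 2 : ℝ) < 1 - (f w : ℝ) := hw g hgA
  have h2 : f w = 1 := hfU hwU
  rw [h2] at h1
  norm_num at h1

theorem IsNet.image {Z W : Type} [TopologicalSpace Z] [TopologicalSpace W] {N : Set (Set Z)}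
    (hN : IsNet N) (φ : Z → W) (hφ : Continuous φ) (hs : Function.Surjective φ) :
    IsNet ((fun A => φ '' A) '' N) := by
  intro w U hU hw
  obtain ⟨z, rfl⟩ := hs w
  obtain ⟨A, hA, hzA, hAU⟩ := hN z (φ ⁻¹' U) (hU.preimage hφ) hw
  exact ⟨_, ⟨A, hA, rfl⟩, ⟨z, hzA, rfl⟩, image_subset_iff.2 hAU⟩

theorem exists_dense (Z : Type) [TopologicalSpace Z] : ∃ D : Set Z, Dense D ∧ #D = dens Z := by
  have hne : {κ : Cardinal.{0} | ∃ D : Set Z, Dense D ∧ Cardinal.mk D = κ}.Nonempty :=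
    ⟨_, Set.univ, dense_univ, rfl⟩
  exact csInf_mem hne

theorem dens_le_of_net {Z : Type} [TopologicalSpace Z] {N : Set (Set Z)} (hN : IsNet N)
    (A : Set Z) : dens A ≤ #N := by
  classical
  let N' : Set (Set Z) := {B ∈ N | (B ∩ A).Nonempty}
  have hch : ∀ B : N', ∃ x : Z, x ∈ B.1 ∩ A := fun B => B.2.2
  choose x hx using hch
  let D : Set A := range (fun B : N' => (⟨x B, (hx B).2⟩ : A))
  have hD : Dense D := by
    rw [dense_iff_inter_open]
    rintro U hU ⟨a, ha⟩
    obtain ⟨V, hV, rfl⟩ := isOpen_induced_iff.1 hU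
    obtain ⟨B, hB, haB, hBV⟩ := hN a.1 V hV ha
    have hB' : B ∈ N' := ⟨hB, ⟨a.1, haB, a.2⟩⟩
    exact ⟨_, hBV (hx ⟨B, hB'⟩).1, ⟨⟨B, hB'⟩, rfl⟩⟩
  have h1 : dens A ≤ #D := csInf_le' ⟨D, hD, rfl⟩
  refine h1.trans (mk_range_le.trans ?_)
  exact mk_le_mk_of_subset (fun B hB => hB.1)

theorem dens_le_hd (X : Type) [TopologicalSpace X] (A : Set X) : dens A ≤ hd X :=
  (le_ciSup Cardinal.bddAbove_of_small A).trans (le_max_left _ _)

theorem exists_dense_le_hd (X : Type) [TopologicalSpace X] :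
    ∃ D : Set X, Dense D ∧ #D ≤ hd X := by
  obtain ⟨D, hD, hDc⟩ := exists_dense (Set.univ : Set X)
  refine ⟨Subtype.val '' D, ?_, ?_⟩
  · exact (Function.Surjective.denseRange (fun x => ⟨⟨x, trivial⟩, rfl⟩)).dense_image
      continuous_subtype_val hD
  · exact mk_image_le.trans (hDc.le.trans (dens_le_hd X _))

theorem hd_le {X Y : Type} [TopologicalSpace X] [TopologicalSpace Y] [T35Space X] [T35Space Y]
    (φ : Cp X → Cp Y) (hφ : Continuous φ) (hs : Function.Surjective φ) : hd Y ≤ 2 ^ hd X := by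
  have h0 : ℵ₀ ≤ hd X := le_max_right _ _
  have h1 : ℵ₀ ≤ 2 ^ hd X := h0.trans (cantor _).le
  obtain ⟨D, hD, hDc⟩ := exists_dense_le_hd X
  obtain ⟨N, hN, hNc⟩ := exists_base D hD
  have hNc' : #N ≤ 2 ^ hd X := hNc.trans (power_le_power_left two_ne_zero hDc)
  obtain ⟨M, hM, hMc⟩ := exists_net_Cp N hN h1 hNc'
  obtain ⟨N', hN', hNc''⟩ := exists_net_of_Cp _ (hM.image φ hφ hs)
  have h2 : #N' ≤ 2 ^ hd X := hNc''.trans (mk_image_le.trans hMc)
  exact max_le (ciSup_le' fun A => (dens_le_of_net hN' A).trans h2) h1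

theorem mk_J : #J = 𝔠 := by
  have h1 : #(((range ((↑) : ℚ → ℝ))ᶜ : Set ℝ)) = #ℝ := by
    refine mk_compl_of_infinite _ ?_
    refine lt_of_le_of_lt ((countable_range _).le_aleph0) ?_
    rw [mk_real]
    exact aleph0_lt_continuum
  rw [mk_real] at h1
  exact h1

theorem hd_onePoint : hd (OnePoint J) = 𝔠 := by
  have h1 : #(OnePoint J) = 𝔠 := by
    have : #(OnePoint J) = #(Option J) := rfl
    rw [this, mk_option, mk_J]
    exact add_one_eq aleph0_le_continuum
  refine le_antisymm (max_le (ciSup_le' fun A => ?_) aleph0_le_continuum) ?_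
  · have h2 : dens A ≤ #(Set.univ : Set A) := csInf_le' ⟨_, dense_univ, rfl⟩
    rw [mk_univ] at h2
    exact h2.trans ((mk_set_le A).trans h1.le)
  · let A : Set (OnePoint J) := range (fun x : J => (x : OnePoint J))
    have hdisc : DiscreteTopology A :=
      (OnePoint.isOpenEmbedding_coe.isEmbedding.toHomeomorph.symm.isEmbedding).discreteTopology
    obtain ⟨D, hD, hDc⟩ := exists_dense A
    have hDu : D = Set.univ := dense_discrete.mp hD
    rw [hDu, mk_univ] at hDc
    have h3 : #A = 𝔠 := by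
      rw [← mk_J]
      exact mk_range_eq _ OnePoint.coe_injective
    rw [← h3, hDc]
    exact dens_le_hd _ A

/-- **The sharp bound for the hereditary density under continuous surjections of function
spaces.** If `X` and `Y` are Tychonoff spaces and `C_p(X)` maps continuously onto `C_p(Y)`, then
`hd(Y) ≤ 2 ^ hd(X)`. The bound is attained, even for compact spaces and an open map: there are
compact Hausdorff spaces `X`, `Y` and an open continuous surjection `C_p(X) → C_p(Y)` with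
`hd(X) = ω` and `hd(Y) = 2 ^ ω`. -/
theorem result :
    (∀ (X Y : Type) [TopologicalSpace X] [TopologicalSpace Y] [T35Space X] [T35Space Y]
      (φ : Cp X → Cp Y), Continuous φ → Function.Surjective φ → hd Y ≤ 2 ^ hd X) ∧
    ∃ (X Y : Type) (_ : TopologicalSpace X) (_ : TopologicalSpace Y),
      CompactSpace X ∧ T35Space X ∧ CompactSpace Y ∧ T35Space Y ∧
      ∃ φ : Cp X → Cp Y, Continuous φ ∧ IsOpenMap φ ∧ Function.Surjective φ ∧
        hd X = ℵ₀ ∧ hd Y = 2 ^ ℵ₀ := by
  refine ⟨fun X Y _ _ _ _ φ hφ hs => hd_le φ hφ hs, DA, OnePoint J, inferInstance, inferInstance,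
    inferInstance, inferInstance, inferInstance, inferInstance, T, continuous_T, isOpenMap_T,
    surjective_T, hd_DA, ?_⟩
  rw [hd_onePoint, two_power_aleph0]

end Pool.Agent.Results.MP_4cc686_gt.SharpBound
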