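import Pool.Agent.Results.MP_4cc686_gt.OpenImage

/-!
# Hereditary density and surjections between function spaces: the sharp bound

Let `C_p(X)` be the space of continuous real functions on `X` with the topology of pointwise
convergence.

* Upper bound: if there is any surjection (continuous or not) of `C_p(X)` onto `C_p(Y)`, then
  `hd(Y) ≤ 2 ^ d(X)`, in particular `hd(Y) ≤ 2 ^ hd(X)`.
* This bound is attained, and the answers to both questions are negative in the strongest possible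
  form: there are compact Hausdorff spaces `X` and `Y` and a *linear* open continuous surjection of
  `C_p(X)` onto `C_p(Y)` such that `X` is hereditarily separable and hereditarily Lindelöf, while
  `hd(Y) = d(Y) = 2 ^ ℵ₀` and `Y` has `2 ^ ℵ₀` pairwise disjoint nonempty open sets.

`X` is the double arrow space and `Y` is the one-point compactification of a discrete space of
cardinality `2 ^ ℵ₀`; the map is the one of the starting file `OpenImage`.
-/

set_option autoImplicit false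

open Set Filter Topology TopologicalSpace Cardinal

namespace Pool.Agent.Results.MP_4cc686_gt.SharpGap

open Pool.Agent.Results.MP_4cc686_gt.OpenImage

/-- The map `φ` between function spaces is linear. -/
def IsLin {X Y : Type} [TopologicalSpace X] [TopologicalSpace Y] (φ : Cp X → Cp Y) : Prop :=
  ∀ (a b : ℝ) (f g h : Cp X), (∀ x, h.1 x = a * f.1 x + b * g.1 x) →
    ∀ y, (φ h).1 y = a * (φ f).1 y + b * (φ g).1 y

/-! ### The upper bound -/

lemma exists_dens (Z : Type) [TopologicalSpace Z] :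
    ∃ D : Set Z, Dense D ∧ Cardinal.mk D = dens Z := by
  have hne : {κ : Cardinal.{0} | ∃ D : Set Z, Dense D ∧ Cardinal.mk D = κ}.Nonempty :=
    ⟨_, Set.univ, dense_univ, rfl⟩
  exact csInf_mem hne

lemma dens_le {Z : Type} [TopologicalSpace Z] {D : Set Z} (hD : Dense D) :
    dens Z ≤ Cardinal.mk D := csInf_le' ⟨D, hD, rfl⟩

lemma dens_le_hd (Z : Type) [TopologicalSpace Z] : dens Z ≤ hd Z := by
  obtain ⟨D, hD, hDc⟩ := exists_dens (Set.univ : Set Z)
  have h1 : Dense (Subtype.val '' D : Set Z) := by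
    have h2 : DenseRange (Subtype.val : ↥(Set.univ : Set Z) → Z) :=
      Function.Surjective.denseRange fun x => ⟨⟨x, mem_univ x⟩, rfl⟩
    exact h2.dense_image continuous_subtype_val hD
  calc dens Z ≤ Cardinal.mk (Subtype.val '' D : Set Z) := dens_le h1
    _ ≤ Cardinal.mk D := Cardinal.mk_image_le
    _ = dens (Set.univ : Set Z) := hDc
    _ ≤ ⨆ A : Set Z, dens A := le_ciSup (f := fun A : Set Z => dens A)
        Cardinal.bddAbove_of_small (Set.univ : Set Z)
    _ ≤ hd Z := le_max_left _ _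

/-- There are at most `2 ^ (d(X) + ℵ₀)` continuous functions on `X`. -/
lemma mk_Cp_le (X : Type) [TopologicalSpace X] :
    Cardinal.mk (Cp X) ≤ 2 ^ max (dens X) ℵ₀ := by
  obtain ⟨E, hE, hEc⟩ := exists_dens X
  have h1 : Cardinal.mk (Cp X) ≤ Cardinal.mk (E → ℝ) := by
    refine Cardinal.mk_le_of_injective (f := fun f : Cp X => fun e : E => f.1 e.1) ?_
    intro f g hfg
    apply Subtype.ext
    exact Continuous.ext_on hE f.2 g.2 fun x hx => congrFun hfg ⟨x, hx⟩
  refine h1.trans ?_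
  rw [← Cardinal.power_def, Cardinal.mk_real, ← Cardinal.two_power_aleph0, ← Cardinal.power_mul,
    ← hEc]
  refine Cardinal.power_le_power_left two_ne_zero ?_
  rw [max_comm]
  exact Cardinal.mul_le_max_of_aleph0_le_left le_rfl

/-- The hereditary density of a Tychonoff space is at most the number of its continuous
functions. -/
lemma dens_le_mk_Cp {Y : Type} [TopologicalSpace Y] [CompletelyRegularSpace Y] (A : Set Y) :
    dens A ≤ Cardinal.mk (Cp Y) := by
  classical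
  let S : Type := {f : Cp Y // ∃ a : A, f.1 a.1 ≠ 0}
  let c : S → A := fun f => f.2.choose
  have hc : ∀ f : S, f.1.1 (c f).1 ≠ 0 := fun f => f.2.choose_spec
  have hD : Dense (range c) := by
    rw [dense_iff_inter_open]
    rintro U hU ⟨a, ha⟩
    obtain ⟨V, hV, rfl⟩ := isOpen_induced_iff.1 hU
    obtain ⟨f, hf, h0, h1⟩ := CompletelyRegularSpace.completely_regular_isOpen a.1 V hV ha
    let g : Cp Y := ⟨fun z => 1 - (f z : ℝ), continuous_const.sub
      (continuous_subtype_val.comp hf)⟩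
    have hg : g.1 a.1 ≠ 0 := by simp [g, h0]
    refine ⟨c ⟨g, a, hg⟩, ?_, ⟨_, rfl⟩⟩
    by_contra hno
    have h2 : f (c ⟨g, a, hg⟩).1 = 1 := h1 hno
    exact hc ⟨g, a, hg⟩ (by simp [g, h2])
  exact (dens_le hD).trans (Cardinal.mk_range_le.trans (Cardinal.mk_subtype_le _))

/-- If `C(X)` maps onto `C(Y)` then `hd(Y) ≤ 2 ^ (d(X) + ℵ₀)`. -/
theorem hd_le {X Y : Type} [TopologicalSpace X] [TopologicalSpace Y] [CompletelyRegularSpace Y]
    (φ : Cp X → Cp Y) (hφ : Function.Surjective φ) : hd Y ≤ 2 ^ max (dens X) ℵ₀ := by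
  refine max_le (ciSup_le' fun A => ?_) ?_
  · exact (dens_le_mk_Cp A).trans ((Cardinal.mk_le_of_surjective hφ).trans (mk_Cp_le X))
  · exact (le_max_right _ _).trans (Cardinal.cantor _).le

theorem hd_le' {X Y : Type} [TopologicalSpace X] [TopologicalSpace Y] [CompletelyRegularSpace Y]
    (φ : Cp X → Cp Y) (hφ : Function.Surjective φ) : hd Y ≤ 2 ^ hd X := by
  refine (hd_le φ hφ).trans (Cardinal.power_le_power_left two_ne_zero ?_)
  exact max_le (dens_le_hd X) (le_max_right _ _)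

/-! ### The double arrow space is hereditarily Lindelöf -/

lemma exists_countable_cofinal (S : Set ℝ) :
    ∃ C ⊆ S, C.Countable ∧ ∀ x ∈ S, ∃ c ∈ C, x ≤ c := by
  classical
  let Q : Set ℚ := {r | ∃ y ∈ S, (r : ℝ) < y}
  have hQ : ∀ r : Q, ∃ y ∈ S, ((r : ℚ) : ℝ) < y := fun r => r.2
  choose y hyS hy using hQ
  refine ⟨range y ∪ {x | x ∈ S ∧ ∀ z ∈ S, z ≤ x}, ?_, ?_, ?_⟩
  · rintro x (⟨r, rfl⟩ | hx)
    · exact hyS r
    · exact hx.1
  · refine (countable_range y).union (Set.Subsingleton.countable ?_)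
    intro a ha b hb
    exact le_antisymm (hb.2 a ha.1) (ha.2 b hb.1)
  · intro x hx
    by_cases h : ∀ z ∈ S, z ≤ x
    · exact ⟨x, Or.inr ⟨hx, h⟩, le_rfl⟩
    · push Not at h
      obtain ⟨z, hz, hxz⟩ := h
      obtain ⟨r, hr1, hr2⟩ := exists_rat_btwn hxz
      have hr : r ∈ Q := ⟨z, hz, hr2⟩
      exact ⟨y ⟨r, hr⟩, Or.inl ⟨⟨r, hr⟩, rfl⟩, (hr1.trans (hy ⟨r, hr⟩)).le⟩

lemma exists_countable_coinitial (S : Set ℝ) :
    ∃ C ⊆ S, C.Countable ∧ ∀ x ∈ S, ∃ c ∈ C, c ≤ x := by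
  obtain ⟨C, hC, hCc, h⟩ := exists_countable_cofinal (Neg.neg ⁻¹' S)
  refine ⟨Neg.neg '' C, ?_, hCc.image _, ?_⟩
  · rintro _ ⟨c, hc, rfl⟩
    exact hC hc
  · intro x hx
    obtain ⟨c, hc, hxc⟩ := h (-x) (by simpa using hx)
    exact ⟨-c, ⟨c, hc, rfl⟩, by linarith⟩

lemma hereditarilyLindelof : HereditarilyLindelofSpace DA := by
  classical
  refine ⟨fun s _ => isLindelof_of_countable_subcover fun {ι} U hU hcov => ?_⟩
  -- left neighbourhoods
  have h1 : ∀ q : ℚ, ∃ t : Set ι, t.Countable ∧ ∀ x : ℝ, (q : ℝ) < x →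
      (∃ i, {w : DA | w.1 x = true ∧ w.1 (q : ℝ) = false} ⊆ U i) → ∃ i ∈ t, up x ∈ U i := by
    intro q
    obtain ⟨C, hC, hCc, hcof⟩ := exists_countable_cofinal {x : ℝ | (q : ℝ) < x ∧
      ∃ i, {w : DA | w.1 x = true ∧ w.1 (q : ℝ) = false} ⊆ U i}
    choose f hf using fun c : C => (hC c.2).2
    have := hCc.to_subtype
    refine ⟨range f, countable_range f, fun x hx hi => ?_⟩
    obtain ⟨c, hc, hxc⟩ := hcof x ⟨hx, hi⟩
    refine ⟨f ⟨c, hc⟩, ⟨_, rfl⟩, hf ⟨c, hc⟩ ⟨?_, ?_⟩⟩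
    · rw [up_apply]; simpa using hxc
    · rw [up_apply]; simpa using hx
  -- right neighbourhoods
  have h2 : ∀ q : ℚ, ∃ t : Set ι, t.Countable ∧ ∀ x : ℝ, x < (q : ℝ) →
      (∃ i, {w : DA | w.1 x = false ∧ w.1 (q : ℝ) = true} ⊆ U i) → ∃ i ∈ t, us x ∈ U i := by
    intro q
    obtain ⟨C, hC, hCc, hcof⟩ := exists_countable_coinitial {x : ℝ | x < (q : ℝ) ∧
      ∃ i, {w : DA | w.1 x = false ∧ w.1 (q : ℝ) = true} ⊆ U i}
    choose f hf using fun c : C => (hC c.2).2
    have := hCc.to_subtype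
    refine ⟨range f, countable_range f, fun x hx hi => ?_⟩
    obtain ⟨c, hc, hxc⟩ := hcof x ⟨hx, hi⟩
    refine ⟨f ⟨c, hc⟩, ⟨_, rfl⟩, hf ⟨c, hc⟩ ⟨?_, ?_⟩⟩
    · rw [us_apply]; simpa using hxc
    · rw [us_apply]; simpa using hx
  choose t1 ht1 ht1' using h1
  choose t2 ht2 ht2' using h2
  have h3 : ∀ w : DA, ∃ t : Set ι, t.Countable ∧ (w ∈ s → ∃ i ∈ t, w ∈ U i) := by
    intro w
    by_cases hw : w ∈ s
    · obtain ⟨i, hi⟩ := mem_iUnion.1 (hcov hw)
      exact ⟨{i}, countable_singleton i, fun _ => ⟨i, rfl, hi⟩⟩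
    · exact ⟨∅, countable_empty, fun h => absurd h hw⟩
  obtain ⟨t3, ht3, ht3'⟩ := h3 bot
  obtain ⟨t4, ht4, ht4'⟩ := h3 top
  refine ⟨(⋃ q, t1 q) ∪ (⋃ q, t2 q) ∪ (t3 ∪ t4),
    ((countable_iUnion ht1).union (countable_iUnion ht2)).union (ht3.union ht4), ?_⟩
  intro w hw
  rw [mem_iUnion₂]
  rcases classify w with rfl | rfl | ⟨x, rfl | rfl⟩
  · obtain ⟨i, hi, h⟩ := ht3' hw
    exact ⟨i, Or.inr (Or.inl hi), h⟩
  · obtain ⟨i, hi, h⟩ := ht4' hw
    exact ⟨i, Or.inr (Or.inr hi), h⟩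
  · obtain ⟨i, hi⟩ := mem_iUnion.1 (hcov hw)
    obtain ⟨G, hG⟩ := exists_finset_of_isOpen (hU i) hi
    obtain ⟨a, ha, haG⟩ := exists_below G x
    obtain ⟨q, hq1, hq2⟩ := exists_rat_btwn ha
    obtain ⟨k, hk, h⟩ := ht1' q x hq2 ⟨i, by
      rintro v ⟨hv1, hv2⟩
      apply hG
      intro g hg
      rw [up_apply]
      by_cases hgx : x ≤ g
      · rw [mono_true hgx hv1]; simp [hgx]
      · rw [mono_false ((haG g hg (not_le.1 hgx)).trans hq1.le) hv2]; simp [hgx]⟩
    exact ⟨k, Or.inl (Or.inl (mem_iUnion.2 ⟨q, hk⟩)), h⟩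
  · obtain ⟨i, hi⟩ := mem_iUnion.1 (hcov hw)
    obtain ⟨G, hG⟩ := exists_finset_of_isOpen (hU i) hi
    obtain ⟨a, ha, haG⟩ := exists_above G x
    obtain ⟨q, hq1, hq2⟩ := exists_rat_btwn ha
    obtain ⟨k, hk, h⟩ := ht2' q x hq1 ⟨i, by
      rintro v ⟨hv1, hv2⟩
      apply hG
      intro g hg
      rw [us_apply]
      by_cases hgx : x < g
      · rw [mono_true (hq2.le.trans (haG g hg hgx)) hv2]; simp [hgx]
      · rw [mono_false (not_lt.1 hgx) hv1]; simp [hgx]⟩
    exact ⟨k, Or.inl (Or.inr (mem_iUnion.2 ⟨q, hk⟩)), h⟩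

/-! ### The one-point compactification of the discrete space of irrational numbers -/

lemma mk_J : Cardinal.mk J = 𝔠 := by
  have h1 : Cardinal.mk (range (fun q : ℚ => (q : ℝ))) < Cardinal.mk ℝ := by
    rw [Cardinal.mk_real]
    exact lt_of_le_of_lt (Cardinal.mk_le_aleph0_iff.2 (countable_range _).to_subtype)
      Cardinal.aleph0_lt_continuum
  have h2 := Cardinal.mk_compl_of_infinite _ h1
  rw [Cardinal.mk_real] at h2
  exact h2

lemma le_mk_of_dense {D : Set (OnePoint J)} (hD : Dense D) : 𝔠 ≤ Cardinal.mk D := by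
  rw [← mk_J]
  have h1 : ∀ x : J, (x : OnePoint J) ∈ D := by
    intro x
    have h2 : IsOpen ({(x : OnePoint J)} : Set (OnePoint J)) := by
      have h3 := OnePoint.isOpenMap_coe (X := J) {x} (isOpen_discrete _)
      simpa using h3
    obtain ⟨y, hy, hyD⟩ := hD.inter_open_nonempty _ h2 ⟨_, rfl⟩
    rw [mem_singleton_iff] at hy
    rwa [hy] at hyD
  exact Cardinal.mk_le_of_injective (f := fun x : J => (⟨x, h1 x⟩ : D))
    fun a b hab => OnePoint.coe_injective (congrArg Subtype.val hab)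

lemma isLin_T : IsLin T := by
  intro a b f g h hh y
  induction y using OnePoint.rec with
  | infty => rw [T_infty, T_infty, T_infty, hh]
  | coe x => rw [T_some, T_some, T_some, hh, hh, hh]; ring

/-- **Main theorem.** -/
theorem result :
    (∀ (X Y : Type) [TopologicalSpace X] [TopologicalSpace Y] [T35Space X] [T35Space Y],
      (∃ φ : Cp X → Cp Y, Function.Surjective φ) →
        hd Y ≤ 2 ^ max (dens X) ℵ₀ ∧ hd Y ≤ 2 ^ hd X) ∧
    ∃ (X Y : Type) (_ : TopologicalSpace X) (_ : TopologicalSpace Y),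
      CompactSpace X ∧ T35Space X ∧ CompactSpace Y ∧ T35Space Y ∧
      HereditarilyLindelofSpace X ∧ hd X = ℵ₀ ∧ hd Y = 2 ^ ℵ₀ ∧ dens Y = 2 ^ ℵ₀ ∧
      (∃ 𝒰 : Set (Set Y), (∀ U ∈ 𝒰, IsOpen U ∧ U.Nonempty) ∧ 𝒰.PairwiseDisjoint id ∧
        Cardinal.mk 𝒰 = 2 ^ ℵ₀) ∧
      ∃ φ : Cp X → Cp Y, Continuous φ ∧ IsOpenMap φ ∧ Function.Surjective φ ∧ IsLin φ := by
  constructor
  · rintro X Y _ _ _ _ ⟨φ, hφ⟩
    exact ⟨hd_le φ hφ, hd_le' φ hφ⟩
  have hup : hd (OnePoint J) ≤ 2 ^ ℵ₀ := by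
    have h1 := hd_le' T surjective_T
    rwa [hd_DA] at h1
  have hlow : 𝔠 ≤ dens (OnePoint J) := by
    obtain ⟨D, hD, hDc⟩ := exists_dens (OnePoint J)
    rw [← hDc]
    exact le_mk_of_dense hD
  rw [← Cardinal.two_power_aleph0] at hlow
  refine ⟨DA, OnePoint J, inferInstance, inferInstance, inferInstance, inferInstance,
    inferInstance, inferInstance, hereditarilyLindelof, hd_DA,
    le_antisymm hup (hlow.trans (dens_le_hd _)), le_antisymm ((dens_le_hd _).trans hup) hlow,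
    ⟨range fun x : J => ({(x : OnePoint J)} : Set (OnePoint J)), ?_, ?_, ?_⟩,
    T, continuous_T, isOpenMap_T, surjective_T, isLin_T⟩
  · rintro _ ⟨x, rfl⟩
    refine ⟨?_, ⟨_, rfl⟩⟩
    have h3 := OnePoint.isOpenMap_coe (X := J) {x} (isOpen_discrete _)
    simpa using h3
  · rintro _ ⟨x, rfl⟩ _ ⟨y, rfl⟩ hne
    rw [Function.onFun, id, id, disjoint_singleton]
    intro h
    exact hne (congrArg (fun z : OnePoint J => ({z} : Set (OnePoint J))) h)
  · rw [Cardinal.mk_range_eq, mk_J, Cardinal.two_power_aleph0]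
    intro a b hab
    exact OnePoint.coe_injective (singleton_injective hab)

end Pool.Agent.Results.MP_4cc686_gt.SharpGap
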